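import Pool.Agent.X257.EX.Pairs

/-!
# Project EX: the good pairs, with squarefree numbers
-/

set_option autoImplicit false

namespace Pool.Agent.X257.EX

open Finset Filter Pool.Agent.TH841.LS Pool.Agent.TH841.NO Pool.Agent.W307.SE Polynomial
  Pool.Agent.Y212.RZ Pool.Agent.W262.RK Pool.Agent.W307.FK Pool.Agent.Y667.RP Pool.Agent.Y667.RZ
  Pool.Agent.Y535.RZ Pool.Agent.W307.RT Pool.Agent.W307.RS Pool.Agent.Y667.MT Pool.Agent.Y667.PA
open Pool.Agent.Y285.RP Pool.Agent.Y285.RZ Pool.Agent.Y738.MT Pool.Agent.X257.PS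

/-- the good pairs -/
def NS (A B : ℕ) : Prop := 1 < B ∧ B < A ∧ Squarefree A ∧ Squarefree B ∧ A % 3 ≠ 0 ∧
  ¬ IsSquare (A * B) ∧ NP A B

lemma ns_of {s : Fin 3 → ℕ} {D : ℕ} (h : Hy s D)
    (hf : (Sel ((D : ℤ) * s 0) ((D : ℤ) * s 1)).Finite)
    (hc : (Sel ((D : ℤ) * s 0) ((D : ℤ) * s 1)).ncard ≤ 4) (h3 : s 0 % 3 = 1) :
    NS (D * s 0) (D * s 1) := by
  have hD0 := h.dat.D0
  have p0 := h.dat.pos 0
  have p1 := h.dat.pos 1
  have p2 := h.dat.pos 2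
  have hd1 := h.dat.dif
  have hBA : s 1 < s 0 := by omega
  have sD : Squarefree D := by
    rcases h.hD with h1 | h1
    · rw [h1]; exact squarefree_one
    · rw [h1]; exact (by norm_num : Nat.Prime 17).squarefree
  have hco := h.dat.co
  rw [h.dat.P3] at hco
  have cD : ∀ x, x ∣ s 0 * s 1 * s 2 → D.Coprime x := fun x hx =>
    (Nat.Coprime.coprime_dvd_left hx hco).symm
  have g1 : 1 < s 1 := by have := h.n1; omega
  have q0 : Squarefree (D * s 0) := by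
    rw [Nat.squarefree_mul_iff]
    exact ⟨cD _ ⟨s 1 * s 2, by ring⟩, sD, h.dat.sqj 0⟩
  have q1 : Squarefree (D * s 1) := by
    rw [Nat.squarefree_mul_iff]
    exact ⟨cD _ ⟨s 0 * s 2, by ring⟩, sD, h.dat.sqj 1⟩
  have q01 : Squarefree (s 0 * s 1) := by
    rw [Nat.squarefree_mul_iff]
    exact ⟨h.dat.cop01, h.dat.sqj 0, h.dat.sqj 1⟩
  refine ⟨lt_of_lt_of_le g1 (Nat.le_mul_of_pos_left _ hD0), Nat.mul_lt_mul_of_pos_left hBA hD0,
    q0, q1, ?_, ?_, ?_⟩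
  · rcases h.hD with h1 | h1
    · rw [h1]; omega
    · rw [h1]; omega
  · rintro ⟨r, hr⟩
    have h1 : D ^ 2 * (s 0 * s 1) = r ^ 2 := by rw [pow_two r, ← hr]; ring
    have h2 : D ∣ r := (Nat.pow_dvd_pow_iff two_ne_zero).1 ⟨_, h1.symm⟩
    obtain ⟨c, rfl⟩ := h2
    have h3 : s 0 * s 1 = c * c := by
      refine Nat.eq_of_mul_eq_mul_left (pow_pos hD0 2) ?_
      rw [h1]; ring
    have h4 := Nat.isUnit_iff.1 (q01 c ⟨1, by rw [mul_one]; exact h3⟩)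
    rw [h4] at h3
    have h5 : s 0 = 1 := Nat.eq_one_of_mul_eq_one_right h3
    omega
  · have := np_of h hf hc
    push_cast
    exact this

lemma ns_pair {X : ℕ} {t : ℕ × ℕ} (ht : t ∈ Icc 1 X ×ˢ Icc 1 X) (h : GoodR 0 X t) :
    NS t.1 t.2 ∨ NS (17 * t.1) (17 * t.2) := by
  have h3 : t.1 % 3 = 1 := h.2.2.2.2.1
  obtain ⟨s, e0, e1, hk, ⟨h1, h2, h3', h4, h5⟩ | ⟨h1, h2, h3', h4, h5⟩⟩ := pair2 ht h
  · left
    have f0 : s 0 = t.1 := by exact_mod_cast e0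
    have f1 : s 1 = t.2 := by exact_mod_cast e1
    have := ns_of h1 (by rw [Nat.cast_one, one_mul, one_mul]; exact h3')
      (by rw [Nat.cast_one, one_mul, one_mul, h4]; norm_num) (by rw [f0]; exact h3)
    rwa [one_mul, one_mul, f0, f1] at this
  · right
    have f0 : s 0 = t.1 := by exact_mod_cast e0
    have f1 : s 1 = t.2 := by exact_mod_cast e1
    have := ns_of h1 (by exact h3') (by
      have : (Sel (((17 : ℕ) : ℤ) * (s 0 : ℤ)) (((17 : ℕ) : ℤ) * (s 1))).ncard = 2 ^ 2 := h4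
      rw [this]
      norm_num) (by rw [f0]; exact h3)
    rw [f0, f1] at this
    exact this

open Classical in
/-- **a positive proportion of all the pairs** -/
theorem pairs2 : ∃ c : ℝ, 0 < c ∧ ∃ N0 : ℕ, ∀ N : ℕ, N0 ≤ N →
    c * (N : ℝ) ^ 2 ≤ (((Icc 1 N ×ˢ Icc 1 N).filter (fun t : ℕ × ℕ => NS t.1 t.2)).card : ℝ) := by
  obtain ⟨c, hc, X0, hX0⟩ := mainR 0
  refine ⟨c / 2312, by positivity, 17 * (X0 + 1), fun N hN => ?_⟩
  obtain ⟨X, hX⟩ : ∃ X, X = N / 17 := ⟨_, rfl⟩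
  have hX1 : X0 + 1 ≤ X := by omega
  have hXN : 17 * X ≤ N := by omega
  have hNX : N ≤ 34 * X := by omega
  have h1 := hX0 X (by omega)
  obtain ⟨F, hF⟩ : ∃ F, F = (Icc 1 X ×ˢ Icc 1 X).filter (GoodR 0 X) := ⟨_, rfl⟩
  rw [← hF] at h1
  obtain ⟨T, hT⟩ : ∃ T, T = (Icc 1 N ×ˢ Icc 1 N).filter (fun t : ℕ × ℕ => NS t.1 t.2) := ⟨_, rfl⟩
  rw [← hT]
  have hmem : ∀ t ∈ F, t ∈ Icc 1 X ×ˢ Icc 1 X ∧ GoodR 0 X t := by
    intro t ht
    rw [hF, mem_filter] at ht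
    exact ht
  have a1 : (F.filter (fun t => NS t.1 t.2)).card ≤ T.card := by
    refine card_le_card fun t ht => ?_
    obtain ⟨g1, g2⟩ := mem_filter.1 ht
    have g3 := (hmem t g1).1
    rw [mem_product, mem_Icc, mem_Icc] at g3
    rw [hT, mem_filter, mem_product, mem_Icc, mem_Icc]
    exact ⟨⟨⟨g3.1.1, by omega⟩, ⟨g3.2.1, by omega⟩⟩, g2⟩
  have a2 : (F.filter (fun t => ¬ NS t.1 t.2)).card ≤ T.card := by
    refine card_le_card_of_injOn (fun t : ℕ × ℕ => (17 * t.1, 17 * t.2)) (fun t ht => ?_)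
      (fun t _ t' _ h => ?_)
    · obtain ⟨g1, g2⟩ := mem_filter.1 (mem_coe.1 ht)
      obtain ⟨g3, g4⟩ := hmem t g1
      have g5 := (ns_pair g3 g4).resolve_left g2
      rw [mem_product, mem_Icc, mem_Icc] at g3
      rw [hT, mem_coe, mem_filter, mem_product, mem_Icc, mem_Icc]
      exact ⟨⟨⟨by dsimp only; omega, by dsimp only; omega⟩,
        ⟨by dsimp only; omega, by dsimp only; omega⟩⟩, g5⟩
    · have h2 := Prod.mk.inj h
      exact Prod.ext (by omega) (by omega)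
  have hsum := card_filter_add_card_filter_not (s := F) (fun t => NS t.1 t.2)
  have k4 : F.card ≤ 2 * T.card := by omega
  have k5 : (F.card : ℝ) ≤ 2 * (T.card : ℝ) := by exact_mod_cast k4
  have k6 : (N : ℝ) ≤ 34 * (X : ℝ) := by exact_mod_cast hNX
  have k7 : (N : ℝ) ^ 2 ≤ 1156 * (X : ℝ) ^ 2 := by
    have h0 : (0 : ℝ) ≤ N := Nat.cast_nonneg _
    have : (N : ℝ) ^ 2 ≤ (34 * (X : ℝ)) ^ 2 := pow_le_pow_left₀ h0 k6 2
    linarith [this]
  calc c / 2312 * (N : ℝ) ^ 2 ≤ c / 2312 * (1156 * (X : ℝ) ^ 2) := by gcongr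
    _ = (c * (X : ℝ) ^ 2) / 2 := by ring
    _ ≤ _ := by linarith

end Pool.Agent.X257.EX
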