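import Pool.Agent.X257.EX.Pairs

/-!
# Project EX: the good triples
-/

set_option autoImplicit false

namespace Pool.Agent.X257.EX

open Finset

/-- the only rational points of `y² = (t + a) (t + b) (t + c)` have `y = 0` -/
def NT (a b c : ℤ) : Prop := 0 < a ∧ 0 < b ∧ 0 < c ∧ a ≠ b ∧ a ≠ c ∧ b ≠ c ∧
  ∀ t y : ℚ, y ^ 2 = (t + a) * (t + b) * (t + c) → y = 0

theorem triples (P : ℤ → ℤ → ℤ → Prop) (hP : ∀ a b c, NT a b c → P a b c) :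
    ∃ κ : ℝ, 0 < κ ∧ ∃ N₀ : ℕ, ∀ N : ℕ, N₀ ≤ N →
    κ * (N : ℝ) ^ 3 ≤ (({t : ℤ × ℤ × ℤ | (1 ≤ t.1 ∧ t.1 ≤ N) ∧ (1 ≤ t.2.1 ∧ t.2.1 ≤ N) ∧
      (1 ≤ t.2.2 ∧ t.2.2 ≤ N) ∧ P t.1 t.2.1 t.2.2}.ncard : ℕ) : ℝ) := by
  classical
  obtain ⟨κ, hκ, N0, h⟩ := Pool.Agent.X257.EX.pairs
  refine ⟨κ / 32, by positivity, 2 * (N0 + 1), fun N hN => ?_⟩
  obtain ⟨M, hM⟩ : ∃ M, M = N / 2 := ⟨_, rfl⟩
  have hM1 : N0 + 1 ≤ M := by omega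
  have hMN : 2 * M ≤ N := by omega
  have hNM : N ≤ 2 * M + 1 := by omega
  have h1 := h M (by omega)
  obtain ⟨T, hT⟩ : ∃ T, T = (Icc 1 M ×ˢ Icc 1 M).filter
      (fun t : ℕ × ℕ => t.2 < t.1 ∧ Pool.Agent.X257.EX.NP (t.1 : ℤ) (t.2 : ℤ)) := ⟨_, rfl⟩
  rw [← hT] at h1
  have hfin : {t : ℤ × ℤ × ℤ | (1 ≤ t.1 ∧ t.1 ≤ N) ∧ (1 ≤ t.2.1 ∧ t.2.1 ≤ N) ∧
      (1 ≤ t.2.2 ∧ t.2.2 ≤ N) ∧ P t.1 t.2.1 t.2.2}.Finite := by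
    refine Set.Finite.subset ((Set.finite_Icc (1 : ℤ) N).prod ((Set.finite_Icc (1 : ℤ) N).prod
      (Set.finite_Icc (1 : ℤ) N))) ?_
    rintro ⟨a, b, c⟩ ⟨h1, h2, h3, -⟩
    exact ⟨h1, h2, h3⟩
  have hle : ((Icc 1 M) ×ˢ T).card ≤ ({t : ℤ × ℤ × ℤ | (1 ≤ t.1 ∧ t.1 ≤ N) ∧
      (1 ≤ t.2.1 ∧ t.2.1 ≤ N) ∧ (1 ≤ t.2.2 ∧ t.2.2 ≤ N) ∧ P t.1 t.2.1 t.2.2}.ncard) := by
    rw [← Set.ncard_coe_finset]
    refine Set.ncard_le_ncard_of_injOn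
      (fun q : ℕ × ℕ × ℕ => (((M + q.1 : ℕ) : ℤ), ((M + q.1 : ℕ) : ℤ) - (q.2.1 : ℤ),
        ((M + q.1 : ℕ) : ℤ) - (q.2.2 : ℤ))) ?_ ?_ hfin
    · rintro ⟨m, A, B⟩ hq
      rw [mem_coe, mem_product, hT, mem_filter, mem_product, mem_Icc, mem_Icc, mem_Icc] at hq
      obtain ⟨g1, ⟨g2, g3⟩, g4, g5⟩ := hq
      dsimp only at g1 g2 g3 g4 g5
      refine ⟨⟨by dsimp only; omega, by dsimp only; omega⟩, ⟨by dsimp only; omega,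
        by dsimp only; omega⟩, ⟨by dsimp only; omega, by dsimp only; omega⟩, ?_⟩
      dsimp only
      refine hP _ _ _ ⟨by omega, by omega, by omega, by omega, by omega, by omega, ?_⟩
      intro t y hy
      refine g5 (t + ((M + m : ℕ) : ℤ)) y ?_
      rw [hy]
      push_cast
      ring
    · rintro ⟨m, A, B⟩ - ⟨m', A', B'⟩ - heq
      simp only [Prod.mk.injEq] at heq
      obtain ⟨e1, e2, e3⟩ := heq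
      have : m = m' := by omega
      subst this
      have e4 : A = A' := by omega
      have e5 : B = B' := by omega
      rw [e4, e5]
  rw [card_product, Nat.card_Icc, Nat.add_sub_cancel] at hle
  have hle' : (M : ℝ) * (T.card : ℝ) ≤ ({t : ℤ × ℤ × ℤ | (1 ≤ t.1 ∧ t.1 ≤ N) ∧
      (1 ≤ t.2.1 ∧ t.2.1 ≤ N) ∧ (1 ≤ t.2.2 ∧ t.2.2 ≤ N) ∧ P t.1 t.2.1 t.2.2}.ncard : ℝ) := by
    exact_mod_cast hle
  refine le_trans ?_ hle'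
  have hM0 : (1 : ℝ) ≤ M := by exact_mod_cast (by omega : 1 ≤ M)
  have hN3 : (N : ℝ) ≤ 3 * M := by
    have : (N : ℝ) ≤ 2 * M + 1 := by exact_mod_cast hNM
    linarith
  have hN0 : (0 : ℝ) ≤ N := Nat.cast_nonneg _
  calc κ / 32 * (N : ℝ) ^ 3 ≤ κ / 32 * (3 * (M : ℝ)) ^ 3 := by gcongr
    _ = κ * (27 / 32) * (M : ℝ) ^ 3 := by ring
    _ ≤ κ * 1 * (M : ℝ) ^ 3 := by gcongr; norm_num
    _ = M * (κ * (M : ℝ) ^ 2) := by ring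
    _ ≤ _ := by gcongr

end Pool.Agent.X257.EX
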