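import Mathlib

/-!
# Project EX: the exact group of rational points, a descent on denominators

If `A > 0` and `B` are squarefree and every rational point of `y² = x (x - A) (x - B)` is, up to
the translation by a point of order 2, a point for which `x`, `x - A`, `x - B` are squares, then the
curve has no rational points besides those with `y = 0`.
-/

set_option autoImplicit false

namespace Pool.Agent.X257.EX

/-- every rational point is in the class of a point of order dividing two -/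
def Cl (A B : ℤ) : Prop := ∀ x y : ℚ, y ≠ 0 → y ^ 2 = x * (x - A) * (x - B) →
  (IsSquare x ∧ IsSquare (x - A)) ∨ (IsSquare (x * (A * B)) ∧ IsSquare ((x - A) * (-A))) ∨
  (IsSquare (x * A) ∧ IsSquare ((x - A) * (A * (A - B)))) ∨
  (IsSquare (x * B) ∧ IsSquare ((x - A) * (B - A)))

lemma cop {C u t z : ℤ} (hC : Squarefree C) (hz : 0 < z) (hc : IsCoprime u z)
    (ht : u ^ 2 - t ^ 2 = C * z ^ 2) : IsCoprime u t := by
  refine isCoprime_of_prime_dvd ?_ fun p hp hu hv => ?_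
  · rintro ⟨rfl, rfl⟩
    have : C * z ^ 2 ≠ 0 := mul_ne_zero hC.ne_zero (pow_ne_zero 2 hz.ne')
    apply this
    rw [← ht]; ring
  · have h1 : p ^ 2 ∣ C * z ^ 2 := by
      rw [← ht]
      exact dvd_sub (pow_dvd_pow_of_dvd hu 2) (pow_dvd_pow_of_dvd hv 2)
    have h2 : IsCoprime p z := hc.of_isCoprime_of_dvd_left hu
    have h3 : p ^ 2 ∣ C := (h2.pow).dvd_of_dvd_mul_right h1
    rw [pow_two] at h3
    exact hp.not_isUnit (hC p h3)

/-- integers -/
lemma int_step {A B u v w z n0 z0 : ℤ} (hA : Squarefree A) (hB : Squarefree B) (A0 : 0 < A)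
    (hz : 0 < z) (hz0 : 0 < z0) (hc : IsCoprime u z) (hv : v ≠ 0)
    (h1 : u ^ 2 - v ^ 2 = A * z ^ 2) (h2 : u ^ 2 - w ^ 2 = B * z ^ 2)
    (h3 : n0 ^ 2 * (2 * u * v * w * z) ^ 2 = (u ^ 4 - A * B * z ^ 4) ^ 2 * z0 ^ 2) : z < z0 := by
  have cv := cop hA hz hc h1
  have cw := cop hB hz hc h2
  have e : u ^ 4 - A * B * z ^ 4 = -(v ^ 2 * w ^ 2) + u * (u * (v ^ 2 + w ^ 2)) := by
    linear_combination (u ^ 2 - w ^ 2) * h1 + (A * z ^ 2) * h2
  have c1 : IsCoprime u (u ^ 4 - A * B * z ^ 4) := by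
    rw [e]
    exact ((cv.pow_right.mul_right cw.pow_right).neg_right).add_mul_left_right _
  have c2 : IsCoprime z (u ^ 4 - A * B * z ^ 4) := by
    have e2 : u ^ 4 - A * B * z ^ 4 = u ^ 4 + z * (-(A * B * z ^ 3)) := by ring
    rw [e2]
    exact (hc.symm.pow_right).add_mul_left_right _
  have c3 : IsCoprime (u * z) (u ^ 4 - A * B * z ^ 4) := c1.mul_left c2
  have d1 : (u * z) ^ 2 ∣ (u ^ 4 - A * B * z ^ 4) ^ 2 * z0 ^ 2 := by
    rw [← h3]
    exact ⟨n0 ^ 2 * (2 * v * w) ^ 2, by ring⟩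
  have d2 : (u * z) ^ 2 ∣ z0 ^ 2 := (c3.pow).dvd_of_dvd_mul_left d1
  have d3 : u * z ∣ z0 := (Int.pow_dvd_pow_iff two_ne_zero).1 d2
  have hu0 : u ≠ 0 := by
    rintro rfl
    have : 0 < A * z ^ 2 := by positivity
    have := sq_nonneg v
    omega
  have hu1 : 2 ≤ |u| := by
    by_contra hcon
    have h4 : |u| = 1 := by
      have := abs_pos.2 hu0
      omega
    have h5 : u ^ 2 = 1 := by
      rw [← sq_abs, h4]; norm_num
    have h6 : 0 < A * z ^ 2 := by positivity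
    have h7 : 0 < v ^ 2 := by positivity
    omega
  have h8 : |u| * z ≤ z0 := by
    have := Int.le_of_dvd hz0 ((abs_dvd _ _).2 d3)
    rwa [abs_mul, abs_of_pos hz] at this
  nlinarith

lemma rat_int {q : ℚ} {m : ℤ} (h : q ^ 2 = m) : ∃ k : ℤ, q = k := by
  have h1 : IsSquare ((m : ℤ) : ℚ) := ⟨q, by rw [← h]; ring⟩
  obtain ⟨k, hk⟩ := Rat.isSquare_intCast_iff.1 h1
  rw [hk] at h
  push_cast at h
  rcases sq_eq_sq_iff_eq_or_eq_neg.1 (h.trans (by ring : (k : ℚ) * k = (k : ℚ) ^ 2)) with h2 | h2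
  · exact ⟨k, h2⟩
  · exact ⟨-k, by push_cast; exact h2⟩

/-- rational numbers -/
lemma step {A B : ℤ} (hA : Squarefree A) (hB : Squarefree B) (A0 : 0 < A) {U V W U0 : ℚ}
    (hV : V ≠ 0) (h1 : U ^ 2 - V ^ 2 = A) (h2 : U ^ 2 - W ^ 2 = B)
    (h3 : (U ^ 4 - A * B) ^ 2 = 4 * (U ^ 2 * V ^ 2 * W ^ 2) * U0 ^ 2) : U.den < U0.den := by
  have hz : (0 : ℤ) < U.den := by exact_mod_cast U.pos
  have hz0 : (0 : ℤ) < U0.den := by exact_mod_cast U0.pos
  have zq : ((U.den : ℤ) : ℚ) ≠ 0 := by exact_mod_cast hz.ne'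
  have zq0 : ((U0.den : ℤ) : ℚ) ≠ 0 := by exact_mod_cast hz0.ne'
  have eU : U * ((U.den : ℤ) : ℚ) = U.num := by exact_mod_cast Rat.mul_den_eq_num U
  have eU0 : U0 * ((U0.den : ℤ) : ℚ) = U0.num := by exact_mod_cast Rat.mul_den_eq_num U0
  have hc : IsCoprime U.num (U.den : ℤ) := by
    rw [Int.isCoprime_iff_gcd_eq_one]
    exact U.reduced
  obtain ⟨z, hzz⟩ : ∃ z : ℤ, z = U.den := ⟨_, rfl⟩
  obtain ⟨z0, hzz0⟩ : ∃ z : ℤ, z = U0.den := ⟨_, rfl⟩
  obtain ⟨u, huu⟩ : ∃ z : ℤ, z = U.num := ⟨_, rfl⟩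
  obtain ⟨n0, hnn⟩ : ∃ z : ℤ, z = U0.num := ⟨_, rfl⟩
  rw [← hzz] at hz zq eU hc
  rw [← hzz0] at hz0 zq0 eU0
  rw [← huu] at eU hc
  rw [← hnn] at eU0
  obtain ⟨v, hv⟩ : ∃ v : ℤ, V * z = v := by
    apply rat_int (m := u ^ 2 - A * z ^ 2)
    push_cast
    rw [← eU, ← h1]; ring
  obtain ⟨w, hw⟩ : ∃ w : ℤ, W * z = w := by
    apply rat_int (m := u ^ 2 - B * z ^ 2)
    push_cast
    rw [← eU, ← h2]; ring
  have hv0 : v ≠ 0 := by
    intro h
    rw [h] at hv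
    push_cast at hv
    exact mul_ne_zero hV zq hv
  have g1 : u ^ 2 - v ^ 2 = A * z ^ 2 := by
    have : ((u ^ 2 - v ^ 2 : ℤ) : ℚ) = ((A * z ^ 2 : ℤ) : ℚ) := by
      push_cast
      rw [← eU, ← hv, ← h1]; ring
    exact_mod_cast this
  have g2 : u ^ 2 - w ^ 2 = B * z ^ 2 := by
    have : ((u ^ 2 - w ^ 2 : ℤ) : ℚ) = ((B * z ^ 2 : ℤ) : ℚ) := by
      push_cast
      rw [← eU, ← hw, ← h2]; ring
    exact_mod_cast this
  have g3 : n0 ^ 2 * (2 * u * v * w * z) ^ 2 = (u ^ 4 - A * B * z ^ 4) ^ 2 * z0 ^ 2 := by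
    have : ((n0 ^ 2 * (2 * u * v * w * z) ^ 2 : ℤ) : ℚ) =
        (((u ^ 4 - A * B * z ^ 4) ^ 2 * z0 ^ 2 : ℤ) : ℚ) := by
      push_cast
      rw [← eU, ← hv, ← hw, ← eU0]
      linear_combination (-((z : ℚ) ^ 8 * z0 ^ 2)) * h3
    exact_mod_cast this
  have := int_step hA hB A0 hz hz0 hc hv0 g1 g2 g3
  omega

lemma tr {A B : ℤ} (hA : A ≠ 0) (hB : B ≠ 0) (hAB : A ≠ B) (hcl : Cl A B) {q y X : ℚ} (hy : y ≠ 0)
    (hq : y ^ 2 = q * (q - A) * (q - B)) (hX : (q ^ 2 - A * B) ^ 2 = 4 * y ^ 2 * X) :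
    ∃ x y' : ℚ, y' ≠ 0 ∧ y' ^ 2 = x * (x - A) * (x - B) ∧ IsSquare x ∧ IsSquare (x - A) ∧
      (x ^ 2 - A * B) ^ 2 = 4 * y' ^ 2 * X := by
  have hp : q * (q - A) * (q - B) ≠ 0 := by rw [← hq]; exact pow_ne_zero 2 hy
  have q0 : q ≠ 0 := left_ne_zero_of_mul (left_ne_zero_of_mul hp)
  have qA : q - A ≠ 0 := right_ne_zero_of_mul (left_ne_zero_of_mul hp)
  have qB : q - B ≠ 0 := right_ne_zero_of_mul hp
  have A' : (A : ℚ) ≠ 0 := by exact_mod_cast hA
  have B' : (B : ℚ) ≠ 0 := by exact_mod_cast hB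
  have AB' : (A : ℚ) - B ≠ 0 := sub_ne_zero.2 (by exact_mod_cast hAB)
  have BA' : (B : ℚ) - A ≠ 0 := sub_ne_zero.2 (by exact_mod_cast hAB.symm)
  rcases hcl q y hy hq with ⟨h1, h2⟩ | ⟨⟨r, hr⟩, ⟨t, ht⟩⟩ | ⟨⟨r, hr⟩, ⟨t, ht⟩⟩ |
    ⟨⟨r, hr⟩, ⟨t, ht⟩⟩
  · exact ⟨q, y, hy, hq, h1, h2, hX⟩
  · refine ⟨A * B / q, A * B * y / q ^ 2, by positivity, ?_, ⟨r / q, ?_⟩,
      ⟨t * y / (q * (q - A)), ?_⟩, ?_⟩
    · have e1 : (A * B / q - A : ℚ) = A * (B - q) / q := by field_simp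
      have e2 : (A * B / q - B : ℚ) = B * (A - q) / q := by field_simp
      rw [e1, e2, div_pow, mul_pow, hq]
      field_simp
      ring
    · rw [div_mul_div_comm, ← hr]
      field_simp
    · have e1 : (A * B / q - A : ℚ) = A * (B - q) / q := by field_simp
      rw [e1, div_mul_div_comm, div_eq_div_iff q0 (by positivity)]
      have e3 : t * y * (t * y) = (q - A) * (-A) * (q * (q - A) * (q - B)) := by
        rw [← hq, ht]; ring
      rw [e3]; ring
    · have e1 : ((A * B / q) ^ 2 - A * B : ℚ) = A * B * (A * B - q ^ 2) / q ^ 2 := by field_simp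
      rw [e1, div_pow, div_pow]
      have : (A * B * (A * B - q ^ 2) : ℚ) ^ 2 = (A * B) ^ 2 * (4 * y ^ 2 * X) := by
        rw [← hX]; ring
      rw [this]
      field_simp
  · refine ⟨A * (q - B) / (q - A), A * (A - B) * y / (q - A) ^ 2, by positivity, ?_,
      ⟨r * y / (q * (q - A)), ?_⟩, ⟨t / (q - A), ?_⟩, ?_⟩
    · have e1 : (A * (q - B) / (q - A) - A : ℚ) = A * (A - B) / (q - A) := by
        field_simp; ring
      have e2 : (A * (q - B) / (q - A) - B : ℚ) = (A - B) * q / (q - A) := by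
        field_simp; ring
      rw [e1, e2, div_pow, mul_pow, hq]
      field_simp
    · rw [div_mul_div_comm, div_eq_div_iff qA (by positivity)]
      have e3 : r * y * (r * y) = q * A * (q * (q - A) * (q - B)) := by
        rw [← hq, hr]; ring
      rw [e3]; ring
    · have e1 : (A * (q - B) / (q - A) - A : ℚ) = A * (A - B) / (q - A) := by
        field_simp; ring
      rw [e1, div_mul_div_comm, ← ht]
      field_simp
    · have e1 : ((A * (q - B) / (q - A)) ^ 2 - A * B : ℚ) =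
          A * (A - B) * (q ^ 2 - A * B) / (q - A) ^ 2 := by field_simp; ring
      rw [e1, div_pow, div_pow]
      have : (A * (A - B) * (q ^ 2 - A * B) : ℚ) ^ 2 = (A * (A - B)) ^ 2 * (4 * y ^ 2 * X) := by
        rw [← hX]; ring
      rw [this]
      field_simp
  · refine ⟨B * (q - A) / (q - B), B * (B - A) * y / (q - B) ^ 2, by positivity, ?_,
      ⟨r * y / (q * (q - B)), ?_⟩, ⟨t * y / ((q - A) * (q - B)), ?_⟩, ?_⟩
    · have e1 : (B * (q - A) / (q - B) - A : ℚ) = (B - A) * q / (q - B) := by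
        field_simp; ring
      have e2 : (B * (q - A) / (q - B) - B : ℚ) = B * (B - A) / (q - B) := by
        field_simp; ring
      rw [e1, e2, div_pow, mul_pow, hq]
      field_simp
    · rw [div_mul_div_comm, div_eq_div_iff qB (by positivity)]
      have e3 : r * y * (r * y) = q * B * (q * (q - A) * (q - B)) := by
        rw [← hq, hr]; ring
      rw [e3]; ring
    · have e1 : (B * (q - A) / (q - B) - A : ℚ) = (B - A) * q / (q - B) := by
        field_simp; ring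
      rw [e1, div_mul_div_comm, div_eq_div_iff qB (by positivity)]
      have e3 : t * y * (t * y) = (q - A) * (B - A) * (q * (q - A) * (q - B)) := by
        rw [← hq, ht]; ring
      rw [e3]; ring
    · have e1 : ((B * (q - A) / (q - B)) ^ 2 - A * B : ℚ) =
          B * (B - A) * (q ^ 2 - A * B) / (q - B) ^ 2 := by field_simp; ring
      rw [e1, div_pow, div_pow]
      have : (B * (B - A) * (q ^ 2 - A * B) : ℚ) ^ 2 = (B * (B - A)) ^ 2 * (4 * y ^ 2 * X) := by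
        rw [← hX]; ring
      rw [this]
      field_simp

theorem no_full {A B : ℤ} (hA : Squarefree A) (hB : Squarefree B) (A0 : 0 < A) (hAB : A ≠ B)
    (hcl : Cl A B) : ∀ n : ℕ, ∀ U V W : ℚ, U.den = n → V ≠ 0 → W ≠ 0 → U ^ 2 - V ^ 2 = A →
      U ^ 2 - W ^ 2 = B → False := by
  intro n
  induction n using Nat.strong_induction_on with
  | _ n ih =>
    intro U V W hn hV hW h1 h2
    have A' : (A : ℚ) ≠ 0 := by exact_mod_cast A0.ne'
    have B' : (B : ℚ) ≠ 0 := by exact_mod_cast hB.ne_zero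
    have BA' : (B : ℚ) - A ≠ 0 := sub_ne_zero.2 (by exact_mod_cast hAB.symm)
    have n1 : U + V ≠ 0 := by
      intro h
      apply A'
      linear_combination (-1 : ℚ) * h1 + (U - V) * h
    have n2 : U + W ≠ 0 := by
      intro h
      apply B'
      linear_combination (-1 : ℚ) * h2 + (U - W) * h
    have n3 : V + W ≠ 0 := by
      intro h
      apply BA'
      linear_combination h1 - h2 + (V - W) * h
    obtain ⟨x, y', hy', hx, ⟨U1, hU1⟩, ⟨V1, hV1⟩, hX⟩ := tr A0.ne' hB.ne_zero hAB hcl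
      (q := (U + V) * (U + W)) (y := (U + V) * (U + W) * (V + W)) (X := U ^ 2) (by positivity)
      (by rw [← h1, ← h2]; ring) (by rw [← h1, ← h2]; ring)
    have hp : x * (x - A) * (x - B) ≠ 0 := by rw [← hx]; exact pow_ne_zero 2 hy'
    have x0 : x ≠ 0 := left_ne_zero_of_mul (left_ne_zero_of_mul hp)
    have xA : x - A ≠ 0 := right_ne_zero_of_mul (left_ne_zero_of_mul hp)
    have xB : x - B ≠ 0 := right_ne_zero_of_mul hp
    have U10 : U1 ≠ 0 := by
      rintro rfl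
      apply x0
      rw [hU1]; ring
    have V10 : V1 ≠ 0 := by
      rintro rfl
      apply xA
      rw [hV1]; ring
    obtain ⟨W1, hW1⟩ : ∃ W1, W1 = y' / (U1 * V1) := ⟨_, rfl⟩
    have W10 : W1 ≠ 0 := by rw [hW1]; positivity
    have eW : W1 ^ 2 = x - B := by
      rw [hW1, div_pow, hx, div_eq_iff (by positivity)]
      rw [mul_pow, pow_two U1, pow_two V1, ← hU1, ← hV1]; ring
    have g1 : U1 ^ 2 - V1 ^ 2 = A := by
      rw [pow_two, pow_two, ← hU1, ← hV1]; ring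
    have g2 : U1 ^ 2 - W1 ^ 2 = B := by
      rw [eW, pow_two, ← hU1]; ring
    have g3 : (U1 ^ 4 - A * B) ^ 2 = 4 * (U1 ^ 2 * V1 ^ 2 * W1 ^ 2) * U ^ 2 := by
      have e1 : U1 ^ 4 = x ^ 2 := by rw [hU1]; ring
      have e2 : U1 ^ 2 * V1 ^ 2 * W1 ^ 2 = y' ^ 2 := by
        rw [eW, hx, pow_two, pow_two, ← hU1, ← hV1]
      rw [e1, e2, hX]
    have h5 := step hA hB A0 V10 g1 g2 g3
    rw [hn] at h5
    exact ih _ h5 U1 V1 W1 rfl V10 W10 g1 g2

/-- **the rational points** -/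
theorem no_points {A B : ℤ} (hA : Squarefree A) (hB : Squarefree B) (A0 : 0 < A) (hAB : A ≠ B)
    (hcl : Cl A B) (x y : ℚ) (h : y ^ 2 = x * (x - A) * (x - B)) : y = 0 := by
  by_contra hy
  obtain ⟨x, y', hy', hx, ⟨U1, hU1⟩, ⟨V1, hV1⟩, hX⟩ := tr A0.ne' hB.ne_zero hAB hcl hy h
    (X := (x ^ 2 - A * B) ^ 2 / (4 * y ^ 2)) (by field_simp)
  have hp : x * (x - A) * (x - B) ≠ 0 := by rw [← hx]; exact pow_ne_zero 2 hy'
  have x0 : x ≠ 0 := left_ne_zero_of_mul (left_ne_zero_of_mul hp)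
  have xA : x - A ≠ 0 := right_ne_zero_of_mul (left_ne_zero_of_mul hp)
  have U10 : U1 ≠ 0 := by
    rintro rfl
    apply x0
    rw [hU1]; ring
  have V10 : V1 ≠ 0 := by
    rintro rfl
    apply xA
    rw [hV1]; ring
  have eW : (y' / (U1 * V1)) ^ 2 = x - B := by
    rw [div_pow, hx, div_eq_iff (by positivity)]
    rw [mul_pow, pow_two U1, pow_two V1, ← hU1, ← hV1]; ring
  exact no_full hA hB A0 hAB hcl _ U1 V1 (y' / (U1 * V1)) rfl V10 (by positivity)
    (by rw [pow_two, pow_two, ← hU1, ← hV1]; ring) (by rw [eW, pow_two, ← hU1]; ring)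

end Pool.Agent.X257.EX
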