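import Pool.Agent.X257.PS.Main
import Pool.Agent.X257.EX.Desc

/-!
# Project EX: the good pairs
-/

set_option autoImplicit false

namespace Pool.Agent.X257.EX

open Finset Filter Pool.Agent.TH841.LS Pool.Agent.TH841.NO Pool.Agent.W307.SE Polynomial
  Pool.Agent.Y212.RZ Pool.Agent.W262.RK Pool.Agent.W307.FK Pool.Agent.Y667.RP Pool.Agent.Y667.RZ
  Pool.Agent.Y535.RZ Pool.Agent.W307.RT Pool.Agent.W307.RS Pool.Agent.Y667.MT Pool.Agent.Y667.PA
open Pool.Agent.Y285.RP Pool.Agent.Y285.RZ Pool.Agent.Y738.MT Pool.Agent.X257.PS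

lemma rat_sf {x : ℚ} (hx : x ≠ 0) : ∃ d : ℤ, Squarefree d ∧ IsSquare (x * d) := by
  have h0 : x.num * x.den ≠ 0 := mul_ne_zero (Rat.num_ne_zero.2 hx) (by exact_mod_cast x.den_nz)
  obtain ⟨d, t, hd, -, h1, -, -⟩ := exists_sf (x.num * x.den) h0
  have hz : ((x.den : ℤ) : ℚ) ≠ 0 := by exact_mod_cast x.den_nz
  have e1 : x * ((x.den : ℤ) : ℚ) = x.num := by exact_mod_cast Rat.mul_den_eq_num x
  refine ⟨d, hd, ⟨d * t / ((x.den : ℤ) : ℚ), ?_⟩⟩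
  have h2 : ((x.num : ℚ)) * ((x.den : ℤ) : ℚ) = d * t ^ 2 := by exact_mod_cast h1
  rw [div_mul_div_comm, eq_div_iff (mul_ne_zero hz hz)]
  linear_combination d * h2 + (d : ℚ) * ((x.den : ℤ) : ℚ) * e1

lemma loc_rat {K : Type} [Field K] [CharZero K] {A B e1 e2 : ℤ} {x y : ℚ} (hy : y ≠ 0)
    (h : y ^ 2 = x * (x - A) * (x - B)) (h1 : IsSquare (x * e1)) (h2 : IsSquare ((x - A) * e2)) :
    Loc K A B e1 e2 := by
  obtain ⟨r, hr⟩ := h1
  obtain ⟨t, ht⟩ := h2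
  refine ⟨x, y, by exact_mod_cast hy, ?_, ⟨r, ?_⟩, ⟨t, ?_⟩⟩
  · have := congrArg (Rat.cast : ℚ → K) h
    push_cast at this
    exact this
  · have := congrArg (Rat.cast : ℚ → K) hr
    push_cast at this
    exact this
  · have := congrArg (Rat.cast : ℚ → K) ht
    push_cast at this
    exact this

theorem cl_of {A B : ℤ} (hA : A ≠ 0) (hB : B ≠ 0) (hAB : A ≠ B) (nA : ¬ IsSquare A)
    (nB : ¬ IsSquare B) (nAB : ¬ IsSquare (A * B)) (hf : (Sel A B).Finite)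
    (hc : (Sel A B).ncard ≤ 4) : Cl A B := by
  intro x y hy h
  have hp : x * (x - A) * (x - B) ≠ 0 := by rw [← h]; exact pow_ne_zero 2 hy
  have x0 : x ≠ 0 := left_ne_zero_of_mul (left_ne_zero_of_mul hp)
  have xA : x - A ≠ 0 := right_ne_zero_of_mul (left_ne_zero_of_mul hp)
  obtain ⟨e1, s1, h1⟩ := rat_sf x0
  obtain ⟨e2, s2, h2⟩ := rat_sf xA
  have hm : ((e1, e2) : ℤ × ℤ) ∈ Sel A B :=
    ⟨s1, s2, loc_rat hy h h1 h2, fun p _ => loc_rat hy h h1 h2⟩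
  have ms : ∀ {z : ℚ} {e C r : ℤ}, IsSquare (z * e) → C = e * r ^ 2 → IsSquare (z * C) := by
    rintro z e C r ⟨q, hq⟩ rfl
    refine ⟨q * r, ?_⟩
    push_cast
    linear_combination (r : ℚ) ^ 2 * hq
  rcases sel_four hA hB hAB nA nB nAB hf hc hm with ⟨rfl, rfl⟩ | ⟨r, t, k1, k2⟩ | ⟨r, t, k1, k2⟩ |
    ⟨r, t, k1, k2⟩
  · left
    rw [Int.cast_one, mul_one] at h1 h2
    exact ⟨h1, h2⟩
  · right; left
    have g1 := ms h1 k1
    have g2 := ms h2 k2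
    push_cast at g1 g2
    exact ⟨g1, g2⟩
  · right; right; left
    have g1 := ms h1 k1
    have g2 := ms h2 k2
    push_cast at g1 g2
    exact ⟨g1, g2⟩
  · right; right; right
    have g1 := ms h1 k1
    have g2 := ms h2 k2
    push_cast at g1 g2
    exact ⟨g1, g2⟩

/-- only the points with `y = 0` -/
def NP (A B : ℤ) : Prop := ∀ x y : ℚ, y ^ 2 = x * (x - A) * (x - B) → y = 0

theorem np_of {s : Fin 3 → ℕ} {D : ℕ} (h : Hy s D)
    (hf : (Sel ((D : ℤ) * s 0) ((D : ℤ) * s 1)).Finite)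
    (hc : (Sel ((D : ℤ) * s 0) ((D : ℤ) * s 1)).ncard ≤ 4) :
    NP ((D : ℤ) * s 0) ((D : ℤ) * s 1) := by
  have hD0 : (0 : ℤ) < D := by exact_mod_cast h.dat.D0
  have p0 : (0 : ℤ) < s 0 := by exact_mod_cast h.dat.pos 0
  have p1 : (0 : ℤ) < s 1 := by exact_mod_cast h.dat.pos 1
  have p2 : (0 : ℤ) < s 2 := by exact_mod_cast h.dat.pos 2
  have hdif := h.dat.dif'
  have hd1 := h.dat.dif
  have A0 : (0 : ℤ) < (D : ℤ) * s 0 := mul_pos hD0 p0
  have B0 : (0 : ℤ) < (D : ℤ) * s 1 := mul_pos hD0 p1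
  have C0 : (0 : ℤ) < (D : ℤ) * s 2 := mul_pos hD0 p2
  have hBA : (D : ℤ) * s 1 < (D : ℤ) * s 0 := by linarith
  have sD : Squarefree D := by
    rcases h.hD with h1 | h1
    · rw [h1]; exact squarefree_one
    · rw [h1]; exact (by norm_num : Nat.Prime 17).squarefree
  have hco := h.dat.co
  rw [h.dat.P3] at hco
  have cD : ∀ x, x ∣ s 0 * s 1 * s 2 → D.Coprime x := fun x hx =>
    (Nat.Coprime.coprime_dvd_left hx hco).symm
  have g0 : 1 < s 0 := by omega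
  have g1 : 1 < s 1 := by have := h.n1; omega
  have q0 : Squarefree (D * s 0) := by
    rw [Nat.squarefree_mul_iff]
    exact ⟨cD _ ⟨s 1 * s 2, by ring⟩, sD, h.dat.sqj 0⟩
  have q1 : Squarefree (D * s 1) := by
    rw [Nat.squarefree_mul_iff]
    exact ⟨cD _ ⟨s 0 * s 2, by ring⟩, sD, h.dat.sqj 1⟩
  have q01 : Squarefree (s 0 * s 1) := by
    rw [Nat.squarefree_mul_iff]
    exact ⟨h.dat.cop01, h.dat.sqj 0, h.dat.sqj 1⟩
  have nA : ¬ IsSquare ((D : ℤ) * s 0) := by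
    have := nsq_sqf q0 (lt_of_lt_of_le g0 (Nat.le_mul_of_pos_left _ h.dat.D0))
    push_cast at this
    exact this
  have nB : ¬ IsSquare ((D : ℤ) * s 1) := by
    have := nsq_sqf q1 (lt_of_lt_of_le g1 (Nat.le_mul_of_pos_left _ h.dat.D0))
    push_cast at this
    exact this
  have sqc : ∀ {u v : ℤ}, u ≠ 0 → IsSquare (u ^ 2 * v) → IsSquare v := by
    intro u v hu h
    obtain ⟨r, hr⟩ := h
    have h1 : u ∣ r := by
      have : u ^ 2 ∣ r ^ 2 := ⟨v, by rw [hr]; ring⟩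
      exact (Int.pow_dvd_pow_iff two_ne_zero).1 this
    obtain ⟨c, rfl⟩ := h1
    refine ⟨c, mul_left_cancel₀ (pow_ne_zero 2 hu) (by linear_combination hr)⟩
  have nAB : ¬ IsSquare ((D : ℤ) * s 0 * ((D : ℤ) * s 1)) := by
    intro h1
    have h2 : (D : ℤ) * s 0 * ((D : ℤ) * s 1) = (D : ℤ) ^ 2 * ((s 0 * s 1 : ℕ) : ℤ) := by
      push_cast; ring
    rw [h2] at h1
    exact nsq_sqf q01 (lt_of_lt_of_le g0 (Nat.le_mul_of_pos_right _ (by omega)))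
      (sqc hD0.ne' h1)
  have z0 : Squarefree ((D : ℤ) * s 0) := by
    have := Int.squarefree_natCast.2 q0
    push_cast at this
    exact this
  have z1 : Squarefree ((D : ℤ) * s 1) := by
    have := Int.squarefree_natCast.2 q1
    push_cast at this
    exact this
  exact fun x y hxy => no_points z0 z1 A0 hBA.ne'
    (cl_of A0.ne' B0.ne' hBA.ne' nA nB nAB hf hc) x y hxy

/-- the good pairs -/
lemma np_pair {X : ℕ} {t : ℕ × ℕ} (ht : t ∈ Icc 1 X ×ˢ Icc 1 X) (h : GoodR 0 X t) :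
    NP (t.1 : ℤ) (t.2 : ℤ) ∨ NP (17 * (t.1 : ℤ)) (17 * (t.2 : ℤ)) := by
  obtain ⟨s, e0, e1, hk, ⟨h1, h2, h3, h4, h5⟩ | ⟨h1, h2, h3, h4, h5⟩⟩ := pair2 ht h
  · left
    have := np_of h1 (by rw [Nat.cast_one, one_mul, one_mul]; exact h3)
      (by rw [Nat.cast_one, one_mul, one_mul, h4]; norm_num)
    rwa [Nat.cast_one, one_mul, one_mul, e0, e1] at this
  · right
    have := np_of h1 (by exact h3) (by
      have : (Sel (((17 : ℕ) : ℤ) * (s 0 : ℤ)) (((17 : ℕ) : ℤ) * (s 1))).ncard = 2 ^ 2 := h4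
      rw [this]
      norm_num)
    rw [e0, e1] at this
    exact this

open Classical in
/-- **a positive proportion of all the pairs** -/
theorem pairs : ∃ c : ℝ, 0 < c ∧ ∃ N0 : ℕ, ∀ N : ℕ, N0 ≤ N →
    c * (N : ℝ) ^ 2 ≤ (((Icc 1 N ×ˢ Icc 1 N).filter
      (fun t : ℕ × ℕ => t.2 < t.1 ∧ NP (t.1 : ℤ) (t.2 : ℤ))).card : ℝ) := by
  obtain ⟨c, hc, X0, hX0⟩ := mainR 0
  refine ⟨c / 2312, by positivity, 17 * (X0 + 1), fun N hN => ?_⟩
  obtain ⟨X, hX⟩ : ∃ X, X = N / 17 := ⟨_, rfl⟩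
  have hX1 : X0 + 1 ≤ X := by omega
  have hXN : 17 * X ≤ N := by omega
  have hNX : N ≤ 34 * X := by omega
  have h1 := hX0 X (by omega)
  obtain ⟨F, hF⟩ : ∃ F, F = (Icc 1 X ×ˢ Icc 1 X).filter (GoodR 0 X) := ⟨_, rfl⟩
  rw [← hF] at h1
  obtain ⟨T, hT⟩ : ∃ T, T = (Icc 1 N ×ˢ Icc 1 N).filter
      (fun t : ℕ × ℕ => t.2 < t.1 ∧ NP (t.1 : ℤ) (t.2 : ℤ)) := ⟨_, rfl⟩
  rw [← hT]
  have hmem : ∀ t ∈ F, t ∈ Icc 1 X ×ˢ Icc 1 X ∧ GoodR 0 X t := by
    intro t ht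
    rw [hF, mem_filter] at ht
    exact ht
  have hlt : ∀ t ∈ F, t.2 < t.1 := by
    intro t ht
    obtain ⟨-, g1, g2, g3, g4, -⟩ := hmem t ht
    omega
  have a1 : (F.filter (fun t => NP (t.1 : ℤ) (t.2 : ℤ))).card ≤ T.card := by
    refine card_le_card fun t ht => ?_
    obtain ⟨g1, g2⟩ := mem_filter.1 ht
    have g3 := (hmem t g1).1
    rw [mem_product, mem_Icc, mem_Icc] at g3
    rw [hT, mem_filter, mem_product, mem_Icc, mem_Icc]
    exact ⟨⟨⟨g3.1.1, by omega⟩, ⟨g3.2.1, by omega⟩⟩, hlt t g1, g2⟩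
  have a2 : (F.filter (fun t => ¬ NP (t.1 : ℤ) (t.2 : ℤ))).card ≤ T.card := by
    refine card_le_card_of_injOn (fun t : ℕ × ℕ => (17 * t.1, 17 * t.2)) (fun t ht => ?_)
      (fun t _ t' _ h => ?_)
    · obtain ⟨g1, g2⟩ := mem_filter.1 (mem_coe.1 ht)
      obtain ⟨g3, g4⟩ := hmem t g1
      have g5 := (np_pair g3 g4).resolve_left g2
      rw [mem_product, mem_Icc, mem_Icc] at g3
      have g6 := hlt t g1
      rw [hT, mem_coe, mem_filter, mem_product, mem_Icc, mem_Icc]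
      refine ⟨⟨⟨by dsimp only; omega, by dsimp only; omega⟩,
        ⟨by dsimp only; omega, by dsimp only; omega⟩⟩, by dsimp only; omega, ?_⟩
      push_cast
      exact g5
    · have h2 := Prod.mk.inj h
      exact Prod.ext (by omega) (by omega)
  have hsum := card_filter_add_card_filter_not (s := F) (fun t => NP (t.1 : ℤ) (t.2 : ℤ))
  have k4 : F.card ≤ 2 * T.card := by omega
  have k5 : (F.card : ℝ) ≤ 2 * (T.card : ℝ) := by exact_mod_cast k4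
  have k6 : (N : ℝ) ≤ 34 * (X : ℝ) := by exact_mod_cast hNX
  have k7 : (N : ℝ) ^ 2 ≤ 1156 * (X : ℝ) ^ 2 := by
    have h0 : (0 : ℝ) ≤ N := Nat.cast_nonneg _
    have : (N : ℝ) ^ 2 ≤ (34 * (X : ℝ)) ^ 2 := pow_le_pow_left₀ h0 k6 2
    linarith [this]
  calc c / 2312 * (N : ℝ) ^ 2 ≤ c / 2312 * (1156 * (X : ℝ) ^ 2) := by gcongr
    _ = (c * (X : ℝ) ^ 2) / 2 := by ring
    _ ≤ _ := by linarith

end Pool.Agent.X257.EX
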